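import Pool.Agent.H11.NY.Targets

/-! Board ny_modules (MP_9b2842_al), module GP: perfect covers. -/

set_option autoImplicit false

namespace Pool.Agent.H35.NY.GP

open Pool.Agent.H11.NY
open Equiv (Perm)

section ds

variable {G : Type} [Group G]

/-- the derived series of a subgroup, inside `G` -/
def ds (L : Subgroup G) : ℕ → Subgroup G
  | 0 => L
  | k + 1 => ⁅ds L k, ds L k⁆

theorem ds_mono {L L' : Subgroup G} (h : L ≤ L') : ∀ k, ds L k ≤ ds L' k
  | 0 => h
  | k + 1 => Subgroup.commutator_mono (ds_mono h k) (ds_mono h k)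

theorem ds_succ_le (L : Subgroup G) (k : ℕ) : ds L (k + 1) ≤ ds L k := by
  change ⁅ds L k, ds L k⁆ ≤ ds L k
  rw [Subgroup.commutator_le]
  intro a ha b hb
  exact Subgroup.mul_mem _ (Subgroup.mul_mem _ (Subgroup.mul_mem _ ha hb)
    (Subgroup.inv_mem _ ha)) (Subgroup.inv_mem _ hb)

theorem ds_anti (L : Subgroup G) : Antitone (ds L) := antitone_nat_of_succ_le (ds_succ_le L)

theorem ds_conj (L : Subgroup G) {g : G} (hg : g ∈ L) : ∀ k, ∀ x ∈ ds L k, g * x * g⁻¹ ∈ ds L k
  | 0 => fun x hx => Subgroup.mul_mem _ (Subgroup.mul_mem _ hg hx) (Subgroup.inv_mem _ hg)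
  | k + 1 => by
    have h : ⁅ds L k, ds L k⁆ ≤ Subgroup.comap (MulAut.conj g).toMonoidHom ⁅ds L k, ds L k⁆ := by
      rw [Subgroup.commutator_le]
      intro a ha b hb
      rw [Subgroup.mem_comap, map_commutatorElement]
      refine Subgroup.commutator_mem_commutator ?_ ?_
      · exact ds_conj L hg k a ha
      · exact ds_conj L hg k b hb
    intro x hx
    exact h hx

/-- the last term of the derived series -/
def R (L : Subgroup G) : Subgroup G := ⨅ k, ds L k

theorem R_le (L : Subgroup G) : R L ≤ L := iInf_le (ds L) 0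

theorem R_mono {L L' : Subgroup G} (h : L ≤ L') : R L ≤ R L' :=
  le_iInf (fun k => (iInf_le _ k).trans (ds_mono h k))

theorem R_conj (L : Subgroup G) {g : G} (hg : g ∈ L) {x : G} (hx : x ∈ R L) :
    g * x * g⁻¹ ∈ R L := by
  rw [R, Subgroup.mem_iInf] at hx ⊢
  exact fun k => ds_conj L hg k x (hx k)

theorem exists_stable (L : Subgroup G) [Finite L] : ∃ k, R L = ds L k ∧ ds L (k + 1) = ds L k := by
  have hfin : ∀ k, Finite (ds L k) := fun k => by
    have h : ds L k ≤ L := ds_anti L (Nat.zero_le k)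
    exact Finite.of_injective _ (Subgroup.inclusion_injective h)
  obtain ⟨k0, hk0⟩ : ∃ k0, ∀ k, Nat.card (ds L k0) ≤ Nat.card (ds L k) :=
    ⟨Function.argmin (fun k => Nat.card (ds L k)), fun k =>
      Function.argmin_le (fun k => Nat.card (ds L k)) k⟩
  have hst : ∀ k, k0 ≤ k → ds L k = ds L k0 := fun k hk =>
    haveI := hfin k0
    Subgroup.eq_of_le_of_card_ge (ds_anti L hk) (hk0 k)
  refine ⟨k0, le_antisymm (iInf_le _ k0) (le_iInf fun k => ?_), hst _ (Nat.le_succ k0)⟩
  rcases le_total k0 k with h | h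
  · rw [hst k h]
  · exact ds_anti L h

theorem R_perfect (L : Subgroup G) [Finite L] : ⁅R L, R L⁆ = R L := by
  obtain ⟨k, h1, h2⟩ := exists_stable L
  rw [h1]
  exact h2

theorem ds_onto (L : Subgroup G) {A : Type} [Group A] (hA : commutator A = ⊤) (φ : L →* A)
    (hφ : Function.Surjective φ) : ∀ k, ((ds L k).subgroupOf L).map φ = ⊤
  | 0 => by
    change (L.subgroupOf L).map φ = ⊤
    rw [Subgroup.subgroupOf_self]
    exact Subgroup.map_top_of_surjective φ hφ
  | k + 1 => by
    have h1 : ⁅(ds L k).subgroupOf L, (ds L k).subgroupOf L⁆ ≤ (ds L (k + 1)).subgroupOf L := by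
      rw [Subgroup.commutator_le]
      intro a ha b hb
      rw [Subgroup.mem_subgroupOf] at ha hb ⊢
      exact Subgroup.commutator_mem_commutator ha hb
    have h2 := Subgroup.map_mono (f := φ) h1
    rw [Subgroup.map_commutator, ds_onto L hA φ hφ k] at h2
    exact top_le_iff.1 (hA ▸ h2)

theorem R_onto (L : Subgroup G) [Finite L] {A : Type} [Group A] (hA : commutator A = ⊤)
    (φ : L →* A) (hφ : Function.Surjective φ) (a : A) : ∃ x : L, (x : G) ∈ R L ∧ φ x = a := by
  obtain ⟨k, h1, _⟩ := exists_stable L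
  have h : a ∈ ((ds L k).subgroupOf L).map φ := by
    rw [ds_onto L hA φ hφ k]
    exact Subgroup.mem_top a
  obtain ⟨x, hx, hxa⟩ := Subgroup.mem_map.1 h
  exact ⟨x, by rw [h1]; exact Subgroup.mem_subgroupOf.1 hx, hxa⟩

/-- elements which are in every subgroup that contains `y` and is normalised by a finite set -/
def NN (y : G) : Subgroup G where
  carrier := {x | ∃ F : Finset G, ∀ X : Subgroup G, y ∈ X →
    (∀ f ∈ F, ∀ z ∈ X, f * z * f⁻¹ ∈ X) → x ∈ X}
  mul_mem' := by
    classical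
    rintro a b ⟨F, hF⟩ ⟨F', hF'⟩
    refine ⟨F ∪ F', fun X hy hX => X.mul_mem (hF X hy fun f hf => hX f ?_)
      (hF' X hy fun f hf => hX f ?_)⟩
    · exact Finset.mem_union_left _ hf
    · exact Finset.mem_union_right _ hf
  one_mem' := ⟨∅, fun X _ _ => X.one_mem⟩
  inv_mem' := by
    rintro a ⟨F, hF⟩
    exact ⟨F, fun X hy hX => X.inv_mem (hF X hy hX)⟩

theorem NN_top [IsSimpleGroup G] {y : G} (hy : y ≠ 1) : NN y = ⊤ := by
  classical
  have hn : (NN y).Normal := by
    refine ⟨?_⟩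
    rintro a ⟨F, hF⟩ g
    refine ⟨insert g F, fun X hy hX => ?_⟩
    exact hX g (Finset.mem_insert_self _ _) a
      (hF X hy fun f hf => hX f (Finset.mem_insert_of_mem hf))
  rcases hn.eq_bot_or_eq_top with h | h
  · exfalso
    have hyN : y ∈ NN y := ⟨∅, fun X hX _ => hX⟩
    rw [h, Subgroup.mem_bot] at hyN
    exact hy hyN
  · exact h

end ds

theorem pf_gp : T_GP := by
  intro G _ _ π hcov F k
  classical
  have hperf : ∀ n : ℕ, 5 ≤ n → commutator (alternatingGroup (Fin n)) = ⊤ := fun n hn =>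
    commutator_alternatingGroup_eq_top (by rw [Nat.card_fin]; exact hn)
  obtain ⟨L0, n0, φ0, ⟨hfin0, hsur0, _⟩, _, hn0⟩ := hcov ∅ 5
  obtain ⟨y, hyR, hy1⟩ : ∃ y, y ∈ R L0 ∧ y ≠ 1 := by
    have : Nontrivial (alternatingGroup (Fin n0)) :=
      alternatingGroup.nontrivial_of_three_le_card (by rw [Nat.card_fin]; omega)
    obtain ⟨a, ha⟩ := exists_ne (1 : alternatingGroup (Fin n0))
    obtain ⟨x, hx, hxa⟩ := R_onto L0 (hperf n0 hn0) φ0 hsur0 a
    refine ⟨x, hx, fun h => ha ?_⟩
    rw [← hxa, show x = 1 from Subtype.ext h, map_one]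
  have hF2 : ∀ x : G, ∃ F2 : Finset G, ∀ X : Subgroup G, y ∈ X →
      (∀ f ∈ F2, ∀ z ∈ X, f * z * f⁻¹ ∈ X) → x ∈ X := by
    intro x
    have : x ∈ NN y := by
      rw [NN_top hy1]
      exact Subgroup.mem_top x
    exact this
  choose F2 hF2 using hF2
  have hfinL0 : (L0 : Set G).Finite := Set.toFinite _
  obtain ⟨L, n, φ, ⟨hfin, hsur, d, hd⟩, hL, hn⟩ :=
    hcov (F ∪ F.biUnion F2 ∪ hfinL0.toFinset) (max k 5)
  have hn5 : 5 ≤ n := (le_max_right k 5).trans hn
  have hL0 : L0 ≤ L := fun x hx => hL x (Finset.mem_union_right _ (hfinL0.mem_toFinset.2 hx))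
  have hXL : R L ≤ L := R_le L
  have hyX : y ∈ R L := R_mono hL0 hyR
  refine ⟨R L, n, φ.comp (Subgroup.inclusion hXL), ⟨?_, ?_, d, ?_⟩, ?_, ?_,
    (le_max_left k 5).trans hn⟩
  · exact Finite.of_injective _ (Subgroup.inclusion_injective hXL)
  · intro a
    obtain ⟨x, hx, hxa⟩ := R_onto L (hperf n hn5) φ hsur a
    exact ⟨⟨x, hx⟩, hxa⟩
  · intro p hp hpd
    refine hd p hp (hpd.trans ?_)
    let ι : (φ.comp (Subgroup.inclusion hXL)).ker →* φ.ker :=
      ((Subgroup.inclusion hXL).comp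
        (φ.comp (Subgroup.inclusion hXL)).ker.subtype).codRestrict φ.ker (fun x => x.2)
    have hι : Function.Injective ι := by
      intro a b hab
      apply Subtype.ext
      apply Subgroup.inclusion_injective hXL
      exact congrArg (fun z : φ.ker => (z : L)) hab
    have h1 : (derivedSeries (φ.comp (Subgroup.inclusion hXL)).ker d).map ι ≤
        derivedSeries φ.ker d := map_derivedSeries_le_derivedSeries ι d
    have h2 := Subgroup.card_dvd_of_le h1
    rwa [Subgroup.card_map_of_injective hι] at h2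
  · apply Subgroup.map_injective (R L).subtype_injective
    rw [Subgroup.map_subtype_commutator, R_perfect, ← MonoidHom.range_eq_map,
      Subgroup.range_subtype]
  · intro x hx
    refine hF2 x (R L) hyX (fun f hf z hz => R_conj L (hL f ?_) hz)
    exact Finset.mem_union_left _ (Finset.mem_union_right _ (Finset.mem_biUnion.2 ⟨x, hx, hf⟩))

end Pool.Agent.H35.NY.GP
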